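import Pool.Agent.PLG.StmtsB

/-!
Squad PLG (MP_1fc801_co), row BGR: dependent random choice, paths of length four.
-/

set_option autoImplicit false

namespace Pool.Agent.PLG.H75B

section

variable {α : Type} [DecidableEq α] (P : Finset α) (R : Finset (α × α))

/-- indicator of the relation -/
noncomputable def ch (a y : α) : ℝ := if (a, y) ∈ R then 1 else 0

/-- number of the common neighbours -/
noncomputable def cd (a b : α) : ℝ := ∑ y ∈ P, ch R a y * ch R b y

/-- indicator of the bad pairs -/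
noncomputable def be (τ : ℝ) (a b : α) : ℝ := if cd P R a b < τ then 1 else 0

theorem ch_nonneg (a y : α) : 0 ≤ ch R a y := by
  unfold ch
  split_ifs <;> norm_num

theorem cd_nonneg (a b : α) : 0 ≤ cd P R a b :=
  Finset.sum_nonneg fun y _ => mul_nonneg (ch_nonneg R a y) (ch_nonneg R b y)

theorem be_nonneg (τ : ℝ) (a b : α) : 0 ≤ be P R τ a b := by
  unfold be
  split_ifs <;> norm_num

theorem be_le (τ : ℝ) (a b : α) : be P R τ a b ≤ 1 := by
  unfold be
  split_ifs <;> norm_num

theorem be_mul_cd (τ : ℝ) (hτ : 0 ≤ τ) (a b : α) : be P R τ a b * cd P R a b ≤ τ := by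
  unfold be
  split_ifs with h
  · rw [one_mul]
    exact h.le
  · rw [zero_mul]
    exact hτ

theorem le_cd (τ : ℝ) (a b : α) : (1 - be P R τ a b) * τ ≤ cd P R a b := by
  unfold be
  split_ifs with h
  · rw [sub_self, zero_mul]
    exact cd_nonneg P R a b
  · rw [sub_zero, one_mul]
    exact not_lt.1 h

theorem count_eq (a a' : α) :
    ((((P ×ˢ (P ×ˢ P)).filter (fun p =>
        (a, p.2.1) ∈ R ∧ (p.1, p.2.1) ∈ R ∧ (p.1, p.2.2) ∈ R ∧ (a', p.2.2) ∈ R)).card : ℕ) : ℝ) =
      ∑ c ∈ P, cd P R a c * cd P R a' c := by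
  rw [← Finset.sum_boole, Finset.sum_product]
  refine Finset.sum_congr rfl fun c _ => ?_
  rw [Finset.sum_product]
  unfold cd
  rw [Finset.sum_mul_sum]
  refine Finset.sum_congr rfl fun y _ => Finset.sum_congr rfl fun z _ => ?_
  unfold ch
  by_cases h1 : (a, y) ∈ R <;> by_cases h2 : (c, y) ∈ R <;> by_cases h3 : (c, z) ∈ R <;>
    by_cases h4 : (a', z) ∈ R <;> simp [h1, h2, h3, h4]

end

theorem bgr : BgrStmt := by
  intro α _ P R k hP hk hR hcard
  classical
  set n : ℝ := (P.card : ℝ) with hn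
  have hn0 : 0 < n := by
    rw [hn]
    exact_mod_cast hP.card_pos
  have hk0 : 0 < k := by linarith
  set τ : ℝ := n / (32 * k ^ 2) with hτ
  have hτ0 : 0 ≤ τ := by positivity
  -- the number of the edges
  have hRc : (R.card : ℝ) = ∑ y ∈ P, ∑ a ∈ P, ch R a y := by
    rw [Finset.sum_comm]
    unfold ch
    rw [← Finset.sum_product' P P (fun a y => if (a, y) ∈ R then (1 : ℝ) else 0)]
    rw [Finset.sum_boole]
    rw [Finset.filter_mem_eq_inter, Finset.inter_eq_right.2 hR]
  set d : α → ℝ := fun y => ∑ a ∈ P, ch R a y with hd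
  set bad : α → ℝ := fun y => ∑ a ∈ P, ∑ b ∈ P, ch R a y * ch R b y * be P R τ a b with hbad
  have hbadsum : ∑ y ∈ P, bad y ≤ n * (n * τ) := by
    have e1 : ∑ y ∈ P, bad y = ∑ a ∈ P, ∑ b ∈ P, be P R τ a b * cd P R a b := by
      rw [hbad]
      simp only
      rw [Finset.sum_comm]
      refine Finset.sum_congr rfl fun a _ => ?_
      rw [Finset.sum_comm]
      refine Finset.sum_congr rfl fun b _ => ?_
      unfold cd
      rw [Finset.mul_sum]
      exact Finset.sum_congr rfl fun y _ => by ring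
    rw [e1]
    calc ∑ a ∈ P, ∑ b ∈ P, be P R τ a b * cd P R a b ≤ ∑ a ∈ P, ∑ b ∈ P, τ :=
          Finset.sum_le_sum fun a _ => Finset.sum_le_sum fun b _ => be_mul_cd P R τ hτ0 a b
      _ = n * (n * τ) := by
          simp only [Finset.sum_const, nsmul_eq_mul, hn]
  have hcs : (R.card : ℝ) ^ 2 ≤ n * ∑ y ∈ P, d y ^ 2 := by
    rw [hRc]
    exact sq_sum_le_card_mul_sum_sq
  have hcs2 : n ^ 3 / k ^ 2 ≤ ∑ y ∈ P, d y ^ 2 := by
    have h1 : (n ^ 2) ^ 2 ≤ (k * R.card) ^ 2 := by
      apply pow_le_pow_left₀ (by positivity) hcard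
    have h2 : (k * (R.card : ℝ)) ^ 2 ≤ k ^ 2 * (n * ∑ y ∈ P, d y ^ 2) := by
      rw [mul_pow]
      exact mul_le_mul_of_nonneg_left hcs (by positivity)
    have h3 : n * n ^ 3 ≤ n * (k ^ 2 * ∑ y ∈ P, d y ^ 2) := by nlinarith
    have h4 := le_of_mul_le_mul_left h3 hn0
    rw [div_le_iff₀ (by positivity)]
    linarith
  obtain ⟨y, hy, hyb⟩ : ∃ y ∈ P, n ^ 2 / (2 * k ^ 2) ≤ d y ^ 2 - 16 * bad y := by
    apply Finset.exists_le_of_sum_le hP
    rw [Finset.sum_const, nsmul_eq_mul, ← hn, Finset.sum_sub_distrib, ← Finset.mul_sum]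
    have e2 : n * (n ^ 2 / (2 * k ^ 2)) = n ^ 3 / k ^ 2 - 16 * (n * (n * τ)) := by
      rw [hτ]
      field_simp
      ring
    rw [e2]
    linarith
  set N : Finset α := P.filter (fun a => (a, y) ∈ R) with hN
  set m : ℝ := (N.card : ℝ) with hm
  have hmd : m = d y := by
    rw [hm, hd, hN]
    simp only
    unfold ch
    rw [Finset.sum_boole]
  have hbadN : bad y = ∑ a ∈ N, ∑ b ∈ N, be P R τ a b := by
    rw [hbad, hN]
    simp only
    rw [Finset.sum_filter]
    refine Finset.sum_congr rfl fun a _ => ?_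
    unfold ch
    split_ifs with h
    · rw [Finset.sum_filter]
      refine Finset.sum_congr rfl fun b _ => ?_
      split_ifs <;> simp
    · simp
  rw [← hmd] at hyb
  have hbad0 : 0 ≤ bad y := by
    rw [hbadN]
    exact Finset.sum_nonneg fun a _ => Finset.sum_nonneg fun b _ => be_nonneg P R τ a b
  have hmn : n ≤ 2 * k * m := by
    have h1 : n ^ 2 / (2 * k ^ 2) ≤ m ^ 2 := by linarith
    rw [div_le_iff₀ (by positivity)] at h1
    have h2 : n ^ 2 ≤ (2 * k * m) ^ 2 := by nlinarith [mul_nonneg (sq_nonneg k) (sq_nonneg m)]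
    exact (le_abs_self n).trans (abs_le_of_sq_le_sq h2 (by positivity))
  have hm0 : 0 < m := by
    have : 0 < 2 * k * m := lt_of_lt_of_le hn0 hmn
    exact (pos_iff_pos_of_mul_pos this).1 (by positivity)
  have hbm : bad y ≤ m ^ 2 / 16 := by
    have : 0 ≤ n ^ 2 / (2 * k ^ 2) := by positivity
    linarith
  set q : α → ℝ := fun a => ∑ b ∈ N, be P R τ a b with hq
  have hq0 : ∀ a, 0 ≤ q a := fun a => Finset.sum_nonneg fun b _ => be_nonneg P R τ a b
  set P' : Finset α := N.filter (fun a => q a ≤ m / 8) with hP'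
  have hcardP' : m / 2 ≤ (P'.card : ℝ) := by
    have h1 : ((N.filter (fun a => ¬ q a ≤ m / 8)).card : ℝ) * (m / 8) ≤ m ^ 2 / 16 := by
      calc ((N.filter (fun a => ¬ q a ≤ m / 8)).card : ℝ) * (m / 8)
          = ∑ a ∈ N.filter (fun a => ¬ q a ≤ m / 8), m / 8 := by
            rw [Finset.sum_const, nsmul_eq_mul]
        _ ≤ ∑ a ∈ N.filter (fun a => ¬ q a ≤ m / 8), q a := by
            refine Finset.sum_le_sum fun a ha => ?_
            exact (not_le.1 (Finset.mem_filter.1 ha).2).le
        _ ≤ ∑ a ∈ N, q a :=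
            Finset.sum_le_sum_of_subset_of_nonneg (Finset.filter_subset _ _) fun a _ _ => hq0 a
        _ = bad y := hbadN.symm
        _ ≤ m ^ 2 / 16 := hbm
    have h2 : ((N.filter (fun a => ¬ q a ≤ m / 8)).card : ℝ) ≤ m / 2 := by
      have h3 : ((N.filter (fun a => ¬ q a ≤ m / 8)).card : ℝ) * (m / 8) ≤ (m / 2) * (m / 8) := by
        linarith [h1, (by ring : (m / 2) * (m / 8) = m ^ 2 / 16)]
      exact le_of_mul_le_mul_right h3 (by positivity)
    have h4 : (P'.card : ℝ) + (N.filter (fun a => ¬ q a ≤ m / 8)).card = m := by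
      rw [hm, hP', ← Nat.cast_add, Finset.card_filter_add_card_filter_not]
    linarith
  refine ⟨P', (Finset.filter_subset _ _).trans (Finset.filter_subset _ _), ?_, ?_⟩
  · nlinarith [mul_le_mul_of_nonneg_left hcardP' hk0.le]
  · intro a ha a' ha'
    rw [count_eq]
    have hqa := (Finset.mem_filter.1 ha).2
    have hqa' := (Finset.mem_filter.1 ha').2
    have h1 : m / 2 * τ ^ 2 ≤ ∑ c ∈ P, cd P R a c * cd P R a' c := by
      calc m / 2 * τ ^ 2 ≤ (m - q a - q a') * τ ^ 2 := by
            apply mul_le_mul_of_nonneg_right _ (by positivity)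
            linarith
        _ = ∑ c ∈ N, (1 - be P R τ a c - be P R τ a' c) * τ ^ 2 := by
            rw [← Finset.sum_mul, Finset.sum_sub_distrib, Finset.sum_sub_distrib,
              Finset.sum_const, nsmul_eq_mul, mul_one]
        _ ≤ ∑ c ∈ N, cd P R a c * cd P R a' c := by
            refine Finset.sum_le_sum fun c _ => ?_
            have g1 := le_cd P R τ a c
            have g2 := le_cd P R τ a' c
            have g3 : 0 ≤ (1 - be P R τ a c) * τ :=
              mul_nonneg (sub_nonneg.2 (be_le P R τ a c)) hτ0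
            have g4 : 0 ≤ (1 - be P R τ a' c) * τ :=
              mul_nonneg (sub_nonneg.2 (be_le P R τ a' c)) hτ0
            have g5 := mul_le_mul g1 g2 g4 (g3.trans g1)
            have g6 : 0 ≤ be P R τ a c * be P R τ a' c * τ ^ 2 :=
              mul_nonneg (mul_nonneg (be_nonneg P R τ a c) (be_nonneg P R τ a' c)) (by positivity)
            nlinarith
        _ ≤ ∑ c ∈ P, cd P R a c * cd P R a' c :=
            Finset.sum_le_sum_of_subset_of_nonneg (Finset.filter_subset _ _)
              fun c _ _ => mul_nonneg (cd_nonneg P R a c) (cd_nonneg P R a' c)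
    calc n ^ 3 = n * n ^ 2 := by ring
      _ ≤ (2 * k * m) * n ^ 2 := mul_le_mul_of_nonneg_right hmn (by positivity)
      _ = 4096 * k ^ 5 * (m / 2 * τ ^ 2) := by
          rw [hτ]
          field_simp
          ring
      _ ≤ 4096 * k ^ 5 * ∑ c ∈ P, cd P R a c * cd P R a' c :=
          mul_le_mul_of_nonneg_left h1 (by positivity)

end Pool.Agent.PLG.H75B
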